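import Pool.Agent.R3B.StmtsL

/-!
# Squad R3B (MP_be01ff_an), row SHE: the error of the linearization
-/

set_option autoImplicit false

namespace Pool.Agent.R3B.H86

open Set Filter Topology MeasureTheory
open Pool.Agent.Helper39_Wave (phi)
open Pool.Agent.Helper72_Shell (CharSol En psi fold)

/-- The mean value bound. -/
theorem phi_lin {α : ℝ} (hα : 0 < α) {V W M w : ℝ} (hV : |V| ≤ M) (hW : |W| ≤ M)
    (h : ∀ x : ℝ, |x| ≤ M → |x - V| ≤ |W - V| → |(α + 1) * |x| ^ α - (α + 1) * |V| ^ α| ≤ w) :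
    |phi α W - phi α V - (α + 1) * |V| ^ α * (W - V)| ≤ w * |W - V| := by
  have key := Convex.norm_image_sub_le_of_norm_hasDerivWithin_le
    (f := fun x => phi α x - (α + 1) * |V| ^ α * x)
    (f' := fun s => (α + 1) * |s| ^ α - (α + 1) * |V| ^ α) (s := Set.uIcc V W) (x := V) (y := W)
    (C := w)
    (fun x _ => ((Pool.Agent.Helper39_Wave.hasDerivAt_phi hα x).sub
      (by simpa using (hasDerivAt_id x).const_mul ((α + 1) * |V| ^ α))).hasDerivWithinAt)
    (fun x hx => by
      rw [Real.norm_eq_abs]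
      apply h x
      · have hV' := abs_le.mp hV
        have hW' := abs_le.mp hW
        rw [Set.mem_uIcc] at hx
        rw [abs_le]
        rcases hx with hx | hx <;> constructor <;> linarith [hx.1, hx.2]
      · exact Set.abs_sub_left_of_mem_uIcc hx)
    (convex_uIcc V W) Set.left_mem_uIcc Set.right_mem_uIcc
  simp only [Real.norm_eq_abs] at key
  have e : phi α W - phi α V - (α + 1) * |V| ^ α * (W - V) =
      phi α W - (α + 1) * |V| ^ α * W - (phi α V - (α + 1) * |V| ^ α * V) := by ring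
  rw [e]
  exact key

/-- A continuous majorant of the indicator of `{x : fold ℓ x < η}`. -/
noncomputable def GG (ℓ η x : ℝ) : ℝ := max 0 (2 - fold ℓ x / η)

theorem GG_cont (ℓ η : ℝ) : Continuous (GG ℓ η) := by
  unfold GG
  exact continuous_const.max (continuous_const.sub
    ((Pool.Agent.Helper72_Shell.fold_continuous ℓ).div_const η))

theorem GG_nonneg (ℓ η x : ℝ) : 0 ≤ GG ℓ η x := le_max_left _ _

theorem GG_le {ℓ η : ℝ} (hℓ : 0 < ℓ) (hη : 0 < η) (x : ℝ) : GG ℓ η x ≤ 2 := by
  unfold GG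
  apply max_le (by norm_num)
  have := div_nonneg (Pool.Agent.Helper72_Shell.fold_nonneg hℓ x) hη.le
  linarith

theorem GG_one {ℓ η : ℝ} (hη : 0 < η) {x : ℝ} (hx : fold ℓ x < η) : 1 ≤ GG ℓ η x := by
  unfold GG
  apply le_max_of_le_right
  have : fold ℓ x / η ≤ 1 := (div_le_one hη).mpr hx.le
  linarith

theorem GG_zero {ℓ η : ℝ} (hη : 0 < η) {x : ℝ} (hx : 2 * η ≤ fold ℓ x) : GG ℓ η x = 0 := by
  unfold GG
  apply max_eq_left
  have : 2 ≤ fold ℓ x / η := by rw [le_div_iff₀ hη]; linarith
  linarith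

theorem GG_per {ℓ : ℝ} (hℓ : 0 < ℓ) (η : ℝ) : Function.Periodic (GG ℓ η) (2 * ℓ) := by
  intro x
  unfold GG
  rw [Pool.Agent.Helper72_Shell.fold_per hℓ]

theorem GG_int {ℓ η : ℝ} (hℓ : 0 < ℓ) (hη : 0 < η) (h2 : 2 * η ≤ ℓ) :
    ∫ x in (-ℓ)..ℓ, GG ℓ η x ≤ 8 * η := by
  have hi : ∀ a b : ℝ, IntervalIntegrable (GG ℓ η) volume a b :=
    fun a b => (GG_cont ℓ η).intervalIntegrable a b
  rw [← intervalIntegral.integral_add_adjacent_intervals (hi (-ℓ) (-(2 * η))) (hi (-(2 * η)) ℓ),
    ← intervalIntegral.integral_add_adjacent_intervals (hi (-(2 * η)) (2 * η)) (hi (2 * η) ℓ)]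
  have b1 : ‖∫ x in (-ℓ)..(-(2 * η)), GG ℓ η x‖ ≤ 0 * |-(2 * η) - -ℓ| := by
    apply intervalIntegral.norm_integral_le_of_norm_le_const
    intro x hx
    rw [Set.uIoc_of_le (by linarith)] at hx
    have hf : fold ℓ x = -x := by
      rw [← Pool.Agent.Helper72_Shell.fold_neg]
      exact Pool.Agent.Helper72_Shell.fold_eq hℓ (by linarith [hx.2]) (by linarith [hx.1])
    rw [GG_zero hη (by rw [hf]; linarith [hx.2])]
    simp
  have b2 : ‖∫ x in (-(2 * η))..(2 * η), GG ℓ η x‖ ≤ 2 * |2 * η - -(2 * η)| := by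
    apply intervalIntegral.norm_integral_le_of_norm_le_const
    intro x _
    rw [Real.norm_eq_abs, abs_of_nonneg (GG_nonneg ℓ η x)]
    exact GG_le hℓ hη x
  have b3 : ‖∫ x in (2 * η)..ℓ, GG ℓ η x‖ ≤ 0 * |ℓ - 2 * η| := by
    apply intervalIntegral.norm_integral_le_of_norm_le_const
    intro x hx
    rw [Set.uIoc_of_le h2] at hx
    have hf : fold ℓ x = x :=
      Pool.Agent.Helper72_Shell.fold_eq hℓ (by linarith [hx.1]) hx.2
    rw [GG_zero hη (by rw [hf]; exact hx.1.le)]
    simp
  rw [Real.norm_eq_abs] at b1 b2 b3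
  rw [show 2 * η - -(2 * η) = 4 * η by ring, abs_of_pos (by linarith : (0 : ℝ) < 4 * η)] at b2
  rw [zero_mul] at b1 b3
  linarith [le_abs_self (∫ x in (-ℓ)..(-(2 * η)), GG ℓ η x),
    le_abs_self (∫ x in (-(2 * η))..(2 * η), GG ℓ η x), le_abs_self (∫ x in (2 * η)..ℓ, GG ℓ η x)]

theorem GG_int_T {ℓ η T : ℝ} (hℓ : 0 < ℓ) (hη : 0 < η) (h2 : 2 * η ≤ ℓ) (n : ℕ)
    (hn : T ≤ n * (2 * ℓ)) (y : ℝ) : ∫ s in (0 : ℝ)..T, GG ℓ η (y - s) ≤ n * (8 * η) := by
  have hi : ∀ a b : ℝ, IntervalIntegrable (GG ℓ η) volume a b :=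
    fun a b => (GG_cont ℓ η).intervalIntegrable a b
  rw [intervalIntegral.integral_comp_sub_left (GG ℓ η) y, sub_zero]
  have h3 := (GG_per hℓ η).intervalIntegral_add_zsmul_eq (n : ℤ) (y - T) hi
  have h4 := (GG_per hℓ η).intervalIntegral_add_eq (y - T) (-ℓ)
  have h5 : -ℓ + 2 * ℓ = ℓ := by ring
  rw [h5] at h4
  rw [h4] at h3
  have h6 : y - T + (n : ℤ) • (2 * ℓ) = y - T + n * (2 * ℓ) := by simp
  rw [h6] at h3
  have h7 : ((n : ℤ) • ∫ x in (-ℓ)..ℓ, GG ℓ η x) = n * ∫ x in (-ℓ)..ℓ, GG ℓ η x := by simp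
  rw [h7] at h3
  have h8 := intervalIntegral.integral_add_adjacent_intervals (hi (y - T) y)
    (hi y (y - T + n * (2 * ℓ)))
  have h9 : 0 ≤ ∫ x in y..(y - T + n * (2 * ℓ)), GG ℓ η x :=
    intervalIntegral.integral_nonneg (by linarith) (fun x _ => GG_nonneg ℓ η x)
  have h10 : (n : ℝ) * ∫ x in (-ℓ)..ℓ, GG ℓ η x ≤ n * (8 * η) :=
    mul_le_mul_of_nonneg_left (GG_int hℓ hη h2) (Nat.cast_nonneg n)
  linarith

theorem she : SheStmt := by
  intro a α ℓ P ha hα hℓ hP T ε hT hε
  have hπ := Real.pi_pos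
  set L : ℝ := Real.pi / ℓ with hL
  have hL0 : 0 < L := by positivity
  set M : ℝ := 2 * L * ℓ with hM
  have hM0 : 0 < M := by positivity
  set K1 : ℝ := (a / 2) * (2 * ((α + 1) * (2 * L) ^ α)) * (2 * L) with hK1
  have hK10 : 0 < K1 := by positivity
  obtain ⟨n, hn⟩ := exists_nat_ge (T / (2 * ℓ))
  have hn' : T ≤ n * (2 * ℓ) := by
    rw [div_le_iff₀ (by linarith)] at hn
    exact hn
  -- the choice of η
  set η : ℝ := min (ℓ / 2) (ε / (2 * (K1 * (8 * (n + 1))))) with hη
  have hn0 : (0 : ℝ) ≤ n := Nat.cast_nonneg n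
  have hη0 : 0 < η := by
    rw [hη]
    apply lt_min (by linarith)
    positivity
  have hη1 : 2 * η ≤ ℓ := by
    have := min_le_left (ℓ / 2) (ε / (2 * (K1 * (8 * (n + 1)))))
    rw [← hη] at this
    linarith
  have hη2 : K1 * (n * (8 * η)) ≤ ε / 2 := by
    have h1 := min_le_right (ℓ / 2) (ε / (2 * (K1 * (8 * (n + 1)))))
    rw [← hη] at h1
    have h2 : (0 : ℝ) < 2 * (K1 * (8 * (n + 1))) := by positivity
    rw [le_div_iff₀ h2] at h1
    have h3 : K1 * (n * (8 * η)) ≤ K1 * ((n + 1) * (8 * η)) := by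
      apply mul_le_mul_of_nonneg_left _ hK10.le
      apply mul_le_mul_of_nonneg_right _ (by positivity)
      linarith
    linarith
  -- the choice of w
  set C : ℝ := (a / 2) * η ^ (-α) * (2 * L) with hC
  have hC0 : 0 < C := by
    have := Real.rpow_pos_of_pos hη0 (-α)
    positivity
  set w : ℝ := ε / (2 * (C * T)) with hw
  have hw0 : 0 < w := by positivity
  have hw1 : C * w * T = ε / 2 := by
    rw [hw]
    field_simp
  -- uniform continuity
  have hcont : Continuous fun x : ℝ => (α + 1) * |x| ^ α :=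
    continuous_const.mul (continuous_abs.rpow_const fun _ => Or.inr hα.le)
  have huc := (isCompact_Icc (a := -M) (b := M)).uniformContinuousOn_of_continuous
    hcont.continuousOn
  rw [Metric.uniformContinuousOn_iff] at huc
  obtain ⟨δ0, hδ0, hd⟩ := huc w hw0
  refine ⟨δ0 / (2 * L + 1), by positivity, ?_⟩
  intro h y hh0 hh
  have hh' : 2 * L * h < δ0 := by
    have h1 : 0 < 2 * L + 1 := by positivity
    rw [le_div_iff₀ h1] at hh
    nlinarith
  have hbound : ∀ s : ℝ, 0 ≤ s → (a / 2) * bl α ℓ (y - s) *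
      |(phi α (DD P (s + h) (y + h)) - phi α (DD P s y)) / h -
      (α + 1) * |DD P s y| ^ α * (qq P h s y - qq P h s (2 * s - y))| ≤
      K1 * GG ℓ η (y - s) + C * w := by
    intro s hs
    set f : ℝ := fold ℓ (y - s) with hf
    have hf0 : 0 ≤ f := Pool.Agent.Helper72_Shell.fold_nonneg hℓ _
    have hf1 : f ≤ ℓ := Pool.Agent.Helper72_Shell.fold_le hℓ _
    set V : ℝ := DD P s y with hV
    set W : ℝ := DD P (s + h) (y + h) with hW
    have hV1 : |V| ≤ 2 * L * f := hP.vb s y hs
    have hW1 : |W| ≤ 2 * L * f := by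
      have := hP.vb (s + h) (y + h) (by linarith)
      rw [show y + h - (s + h) = y - s by ring] at this
      exact this
    have eW : W - V = h * (qq P h s y - qq P h s (2 * s - y)) := by
      rw [hW, hV]
      unfold DD qq
      rw [show 2 * (s + h) - (y + h) = 2 * s - y + h by ring]
      field_simp
      ring
    have e1 : (phi α W - phi α V) / h - (α + 1) * |V| ^ α *
        (qq P h s y - qq P h s (2 * s - y)) =
        (phi α W - phi α V - (α + 1) * |V| ^ α * (W - V)) / h := by
      rw [eW]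
      field_simp
    rw [e1, abs_div, abs_of_pos hh0]
    have hWV : |W - V| ≤ 2 * L * h := by
      rw [hW, hV]
      unfold DD
      rw [show 2 * (s + h) - (y + h) = 2 * s - y + h by ring]
      have h1 := hP.lip s h y hs hh0.le
      have h2 := hP.lip s h (2 * s - y) hs hh0.le
      have h3 : P (s + h) (y + h) - P (s + h) (2 * s - y + h) - (P s y - P s (2 * s - y)) =
          (P (s + h) (y + h) - P s y) - (P (s + h) (2 * s - y + h) - P s (2 * s - y)) := by ring
      rw [h3]
      calc _ ≤ |P (s + h) (y + h) - P s y| + |P (s + h) (2 * s - y + h) - P s (2 * s - y)| :=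
            abs_sub _ _
        _ ≤ 2 * L * h := by
          rw [← hL] at h1 h2
          linarith
    have hbl0 : 0 ≤ bl α ℓ (y - s) := Real.rpow_nonneg hf0 _
    have hG := GG_nonneg ℓ η (y - s)
    rcases lt_or_ge f η with hfη | hfη
    · -- near the tip
      have h1 := Pool.Agent.Helper39_Wave.phi_sub_le hα hV1 hW1
      have h2 : |(α + 1) * |V| ^ α * (W - V)| ≤ (α + 1) * (2 * L * f) ^ α * |W - V| := by
        rw [abs_mul, abs_of_nonneg (by positivity : 0 ≤ (α + 1) * |V| ^ α)]
        apply mul_le_mul_of_nonneg_right _ (abs_nonneg _)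
        apply mul_le_mul_of_nonneg_left _ (by linarith)
        exact Real.rpow_le_rpow (abs_nonneg V) hV1 hα.le
      have h3 : |phi α W - phi α V - (α + 1) * |V| ^ α * (W - V)| ≤
          2 * ((α + 1) * (2 * L * f) ^ α) * |W - V| := by
        calc _ ≤ |phi α W - phi α V| + |(α + 1) * |V| ^ α * (W - V)| := abs_sub _ _
          _ ≤ _ := by linarith
      have h4 : |phi α W - phi α V - (α + 1) * |V| ^ α * (W - V)| / h ≤
          2 * ((α + 1) * (2 * L * f) ^ α) * (2 * L) := by
        rw [div_le_iff₀ hh0]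
        calc _ ≤ 2 * ((α + 1) * (2 * L * f) ^ α) * |W - V| := h3
          _ ≤ 2 * ((α + 1) * (2 * L * f) ^ α) * (2 * L * h) := by
            apply mul_le_mul_of_nonneg_left hWV
            have : 0 ≤ (2 * L * f) ^ α := Real.rpow_nonneg (by positivity) _
            positivity
          _ = _ := by ring
      have h5 : bl α ℓ (y - s) * f ^ α ≤ 1 := by
        unfold bl
        rw [← hf]
        rcases hf0.eq_or_lt with h0 | h0
        · rw [← h0, Real.zero_rpow hα.ne']
          simp
        · rw [Real.rpow_neg h0.le, inv_mul_cancel₀ (Real.rpow_pos_of_pos h0 α).ne']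
      have h6 : (2 * L * f) ^ α = (2 * L) ^ α * f ^ α :=
        Real.mul_rpow (by positivity) hf0
      have h7 : (a / 2) * bl α ℓ (y - s) * (|phi α W - phi α V -
          (α + 1) * |V| ^ α * (W - V)| / h) ≤ K1 := by
        calc _ ≤ (a / 2) * bl α ℓ (y - s) * (2 * ((α + 1) * (2 * L * f) ^ α) * (2 * L)) :=
              mul_le_mul_of_nonneg_left h4 (by positivity)
          _ = K1 * (bl α ℓ (y - s) * f ^ α) := by
            rw [h6, hK1]
            ring
          _ ≤ K1 * 1 := mul_le_mul_of_nonneg_left h5 hK10.le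
          _ = K1 := mul_one _
      have h8 : 1 ≤ GG ℓ η (y - s) := GG_one hη0 hfη
      have h9 : K1 * 1 ≤ K1 * GG ℓ η (y - s) := mul_le_mul_of_nonneg_left h8 hK10.le
      have h10 : 0 ≤ C * w := by positivity
      linarith
    · -- away from the tip
      have hfM : 2 * L * f ≤ M := by
        rw [hM]
        exact mul_le_mul_of_nonneg_left hf1 (by positivity)
      have h1 := phi_lin hα (V := V) (W := W) (M := M) (w := w) (hV1.trans hfM) (hW1.trans hfM)
        (by
          intro x hx hxV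
          have h2 := hd x (abs_le.mp hx) V (abs_le.mp (hV1.trans hfM)) (by
            rw [Real.dist_eq]
            linarith)
          rw [Real.dist_eq] at h2
          exact h2.le)
      have h4 : |phi α W - phi α V - (α + 1) * |V| ^ α * (W - V)| / h ≤ w * (2 * L) := by
        rw [div_le_iff₀ hh0]
        calc _ ≤ w * |W - V| := h1
          _ ≤ w * (2 * L * h) := mul_le_mul_of_nonneg_left hWV hw0.le
          _ = _ := by ring
      have h5 : bl α ℓ (y - s) ≤ η ^ (-α) := by
        unfold bl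
        rw [← hf]
        exact Real.rpow_le_rpow_of_nonpos hη0 hfη (by linarith)
      have h7 : (a / 2) * bl α ℓ (y - s) * (|phi α W - phi α V -
          (α + 1) * |V| ^ α * (W - V)| / h) ≤ C * w := by
        calc _ ≤ (a / 2) * η ^ (-α) * (w * (2 * L)) := by
              apply mul_le_mul _ h4 (by positivity)
              · have := Real.rpow_pos_of_pos hη0 (-α)
                positivity
              · exact mul_le_mul_of_nonneg_left h5 (by positivity)
          _ = C * w := by rw [hC]; ring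
      have h9 : 0 ≤ K1 * GG ℓ η (y - s) := by positivity
      linarith
  have hgi : IntervalIntegrable (fun s => K1 * GG ℓ η (y - s) + C * w) volume 0 T := by
    apply Continuous.intervalIntegrable
    exact (continuous_const.mul ((GG_cont ℓ η).comp (continuous_const.sub continuous_id))).add
      continuous_const
  have hfin := intervalIntegral.norm_integral_le_of_norm_le hT.le (f := fun s =>
    (a / 2) * bl α ℓ (y - s) *
      |(phi α (DD P (s + h) (y + h)) - phi α (DD P s y)) / h -
      (α + 1) * |DD P s y| ^ α * (qq P h s y - qq P h s (2 * s - y))|)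
    (g := fun s => K1 * GG ℓ η (y - s) + C * w) (μ := volume)
    (Filter.Eventually.of_forall (fun s hs => by
      have hb := hbound s hs.1.le
      have hbl0 : 0 ≤ bl α ℓ (y - s) :=
        Real.rpow_nonneg (Pool.Agent.Helper72_Shell.fold_nonneg hℓ _) _
      rw [Real.norm_eq_abs, abs_of_nonneg (by positivity)]
      exact hb)) hgi
  rw [Real.norm_eq_abs] at hfin
  have hsum : ∫ s in (0 : ℝ)..T, (K1 * GG ℓ η (y - s) + C * w) =
      K1 * (∫ s in (0 : ℝ)..T, GG ℓ η (y - s)) + C * w * T := by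
    rw [intervalIntegral.integral_add, intervalIntegral.integral_const_mul,
      intervalIntegral.integral_const, smul_eq_mul]
    · ring
    · apply Continuous.intervalIntegrable
      exact continuous_const.mul ((GG_cont ℓ η).comp (continuous_const.sub continuous_id))
    · exact intervalIntegrable_const
  rw [hsum] at hfin
  have hGT := GG_int_T hℓ hη0 hη1 n hn' y
  have hK2 : K1 * (∫ s in (0 : ℝ)..T, GG ℓ η (y - s)) ≤ K1 * (n * (8 * η)) :=
    mul_le_mul_of_nonneg_left hGT hK10.le
  exact (le_abs_self _).trans (hfin.trans (by linarith))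

end Pool.Agent.R3B.H86
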